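import Pool.Agent.H10.FEX.Stmts

/-!
# FEX, module `OMB`: `C ^ ω(R)` is small
-/

set_option autoImplicit false

namespace Pool.FEX

open Finset Pool.Agent.H98.ABCR

theorem omb_thm : S_OMB := by
  intro C ε hC hε
  have hC0 : 0 < C := by linarith
  obtain ⟨z, hz⟩ := exists_nat_ge (C ^ (1 / ε))
  refine ⟨C ^ (z + 1), one_le_pow₀ hC, fun R hR => ?_⟩
  have hR0 : R ≠ 0 := by omega
  have h1 : ∀ p ∈ R.primeFactors, C ≤ (if p ≤ z then C else 1) * (p : ℝ) ^ ε := by
    intro p hp
    have hp1 : 1 ≤ p := (Nat.prime_of_mem_primeFactors hp).pos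
    have hp1' : (1 : ℝ) ≤ p := by exact_mod_cast hp1
    split_ifs with h
    · have : (1 : ℝ) ≤ (p : ℝ) ^ ε := Real.one_le_rpow hp1' hε.le
      nlinarith
    · rw [one_mul]
      have h2 : (z : ℝ) ≤ p := by exact_mod_cast (not_le.1 h).le
      calc C = (C ^ (1 / ε)) ^ ε := by
            rw [← Real.rpow_mul hC0.le, one_div_mul_cancel hε.ne', Real.rpow_one]
        _ ≤ (p : ℝ) ^ ε := Real.rpow_le_rpow (by positivity) (hz.trans h2) hε.le
  have h2 : C ^ om R ≤ C ^ z * (R : ℝ) ^ ε := by
    calc C ^ om R = ∏ _p ∈ R.primeFactors, C := by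
          rw [prod_const]
          rfl
      _ ≤ ∏ p ∈ R.primeFactors, ((if p ≤ z then C else 1) * (p : ℝ) ^ ε) :=
          prod_le_prod (fun p _ => hC0.le) h1
      _ = (∏ p ∈ R.primeFactors, (if p ≤ z then C else 1)) * (∏ p ∈ R.primeFactors, (p : ℝ)) ^ ε := by
          rw [prod_mul_distrib, Real.finsetProd_rpow _ _ (fun p _ => by positivity)]
      _ ≤ C ^ z * (R : ℝ) ^ ε := by
          refine mul_le_mul ?_ ?_ (by positivity) (by positivity)
          · rw [prod_ite, prod_const, prod_const_one, mul_one]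
            refine pow_le_pow_right₀ hC ?_
            have hsub : R.primeFactors.filter (fun p => p ≤ z) ⊆ Icc 1 z := by
              intro p hp
              rw [mem_filter] at hp
              rw [mem_Icc]
              exact ⟨(Nat.prime_of_mem_primeFactors hp.1).pos, hp.2⟩
            have := card_le_card hsub
            rwa [Nat.card_Icc, Nat.add_sub_cancel] at this
          · refine Real.rpow_le_rpow (by positivity) ?_ hε.le
            rw [← Nat.cast_prod]
            exact_mod_cast Nat.le_of_dvd (by omega) (Nat.prod_primeFactors_dvd R)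
  calc C ^ (om R + 1) = C ^ om R * C := pow_succ _ _
    _ ≤ C ^ z * (R : ℝ) ^ ε * C := mul_le_mul_of_nonneg_right h2 hC0.le
    _ = C ^ (z + 1) * (R : ℝ) ^ ε := by ring

end Pool.FEX
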