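import Pool.Agent.H10.FEX.Stmts

/-!
# FEX, module `ML2`: ordered factorisations into not too many integers
-/

set_option autoImplicit false

namespace Pool.FEX

open Finset

namespace ML

/-- vectors with given sum -/
def S (t a : ℕ) : Finset (Fin t → ℕ) :=
  (Fintype.piFinset fun _ : Fin t => range (a + 1)).filter (fun v => ∑ i, v i = a)

theorem mem_S {t a : ℕ} {v : Fin t → ℕ} : v ∈ S t a ↔ ∑ i, v i = a := by
  unfold S
  rw [mem_filter, Fintype.mem_piFinset]
  constructor
  · exact fun h => h.2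
  · intro h
    refine ⟨fun i => ?_, h⟩
    rw [mem_range, ← h]
    exact Nat.lt_succ_of_le
      (Finset.single_le_sum (f := v) (fun _ _ => Nat.zero_le _) (mem_univ i))

theorem S_le1 (t a : ℕ) : (S t a).card ≤ (a + 1) ^ t := by
  refine (card_filter_le _ _).trans ?_
  rw [Fintype.card_piFinset]
  simp

theorem S_le2 (t a : ℕ) : (S t a).card ≤ t ^ a := by
  induction a with
  | zero => simpa using S_le1 t 0
  | succ a ih =>
    have hs : S t (a + 1) ⊆ ((univ : Finset (Fin t)) ×ˢ S t a).image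
        (fun w => Function.update w.2 w.1 (w.2 w.1 + 1)) := by
      intro v hv
      rw [mem_S] at hv
      obtain ⟨i, -, hi⟩ : ∃ i ∈ (univ : Finset (Fin t)), v i ≠ 0 := by
        by_contra h
        push Not at h
        rw [Finset.sum_eq_zero h] at hv
        omega
      rw [mem_image]
      refine ⟨(i, Function.update v i (v i - 1)), ?_, ?_⟩
      · rw [mem_product]
        refine ⟨mem_univ _, ?_⟩
        rw [mem_S]
        have h1 := Finset.sum_update_of_mem (mem_univ i) v (v i - 1)
        have h2 : v i + ∑ j ∈ univ \ {i}, v j = ∑ j, v j := by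
          rw [← Finset.sum_update_of_mem (mem_univ i) v (v i), Function.update_eq_self]
        have h3 : ∑ j, (Function.update v i (v i - 1)) j =
            v i - 1 + ∑ j ∈ univ \ {i}, v j := h1
        change ∑ j, (Function.update v i (v i - 1)) j = a
        omega
      · change Function.update (Function.update v i (v i - 1)) i
          ((Function.update v i (v i - 1)) i + 1) = v
        rw [Function.update_self, Function.update_idem, Nat.sub_add_cancel (Nat.pos_of_ne_zero hi),
          Function.update_eq_self]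
    refine (card_le_card hs).trans (card_image_le.trans ?_)
    rw [card_product, card_univ, Fintype.card_fin, pow_succ, mul_comm (t ^ a)]
    exact Nat.mul_le_mul_left _ ih

/-- the number of ordered factorisations is bounded by the product of the numbers of vectors of
exponents -/
theorem fac_le (t : ℕ) (U : Finset ℕ) (hU : ∀ q ∈ U, 0 < q) (N : ℕ) (hN : N ≠ 0) :
    ((Fintype.piFinset fun _ : Fin t => U).filter (fun w => ∏ i, w i = N)).card ≤
      ∏ p ∈ N.primeFactors, (S t (N.factorization p)).card := by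
  classical
  rw [← Finset.card_pi]
  refine card_le_card_of_injOn (fun w => fun p _ => fun i => (w i).factorization p) ?_ ?_
  · intro w hw
    have hw' := mem_filter.1 (mem_coe.1 hw)
    rw [Fintype.mem_piFinset] at hw'
    rw [mem_coe, mem_pi]
    intro p _
    rw [mem_S]
    have hf : N.factorization = ∑ i, (w i).factorization := by
      rw [← hw'.2, Nat.factorization_prod (fun i _ => (hU _ (hw'.1 i)).ne')]
    rw [hf, Finsupp.finsetSum_apply]
  · intro w hw w' hw' he
    have h1 := mem_filter.1 (mem_coe.1 hw)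
    have h2 := mem_filter.1 (mem_coe.1 hw')
    rw [Fintype.mem_piFinset] at h1 h2
    funext i
    refine Nat.eq_of_factorization_eq (hU _ (h1.1 i)).ne' (hU _ (h2.1 i)).ne' (fun p => ?_)
    by_cases hp : p ∈ N.primeFactors
    · exact congrFun (congrFun (congrFun he p) hp) i
    · have hz : ∀ u : Fin t → ℕ, ∏ j, u j = N → (u i).factorization p = 0 := by
        intro u hu
        by_contra hc
        refine hp ?_
        have hd : u i ∣ N := by
          rw [← hu]
          exact dvd_prod_of_mem u (mem_univ i)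
        have hpp : p ∈ (u i).primeFactors := by
          rw [← Nat.support_factorization]
          exact Finsupp.mem_support_iff.2 hc
        exact Nat.primeFactors_mono hd hN hpp
      rw [hz w h1.2, hz w' h2.2]

/-- the real bound -/
theorem fac_le2 (t K : ℕ) (ht : 1 ≤ t) (hK : 1 ≤ K) (U : Finset ℕ) (hU : ∀ q ∈ U, 0 < q) (N : ℕ)
    (hN : N ≠ 0) (B : ℝ) (hB : ∀ p ∈ N.primeFactors, (N.factorization p : ℝ) + 1 ≤ B)
    (hB1 : 1 ≤ B) :
    (((Fintype.piFinset fun _ : Fin t => U).filter (fun w => ∏ i, w i = N)).card : ℝ) ≤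
      B ^ (t ^ (K + 1)) * (N : ℝ) ^ (1 / (K : ℝ)) := by
  have hK0 : (0 : ℝ) < K := by exact_mod_cast hK
  have h0 := fac_le t U hU N hN
  have h1 : (((Fintype.piFinset fun _ : Fin t => U).filter (fun w => ∏ i, w i = N)).card : ℝ) ≤
      ∏ p ∈ N.primeFactors, ((S t (N.factorization p)).card : ℝ) := by
    calc (((Fintype.piFinset fun _ : Fin t => U).filter (fun w => ∏ i, w i = N)).card : ℝ)
        ≤ ((∏ p ∈ N.primeFactors, (S t (N.factorization p)).card : ℕ) : ℝ) := by
          exact_mod_cast h0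
      _ = _ := by push_cast; rfl
  refine h1.trans ?_
  have h2 : ∀ p ∈ N.primeFactors, ((S t (N.factorization p)).card : ℝ) ≤
      (if p ≤ t ^ K then B ^ t else 1) * (((p ^ N.factorization p : ℕ) : ℝ) ^ (1 / (K : ℝ))) := by
    intro p hp
    have hp1 : 1 ≤ p := (Nat.prime_of_mem_primeFactors hp).pos
    have hge : (1 : ℝ) ≤ ((p ^ N.factorization p : ℕ) : ℝ) ^ (1 / (K : ℝ)) := by
      refine Real.one_le_rpow ?_ (by positivity)
      exact_mod_cast Nat.one_le_pow _ _ hp1
    split_ifs with hz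
    · have hb : ((S t (N.factorization p)).card : ℝ) ≤ B ^ t := by
        calc ((S t (N.factorization p)).card : ℝ) ≤ (((N.factorization p + 1) ^ t : ℕ) : ℝ) := by
              exact_mod_cast S_le1 t _
          _ = ((N.factorization p : ℝ) + 1) ^ t := by push_cast; rfl
          _ ≤ B ^ t := pow_le_pow_left₀ (by positivity) (hB p hp) t
      calc ((S t (N.factorization p)).card : ℝ) ≤ B ^ t := hb
        _ = B ^ t * 1 := (mul_one _).symm
        _ ≤ _ := mul_le_mul_of_nonneg_left hge (by positivity)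
    · rw [one_mul]
      have hz' : t ^ K ≤ p := (not_le.1 hz).le
      have hb : (t : ℝ) ≤ (p : ℝ) ^ (1 / (K : ℝ)) := by
        have e1 : (t : ℝ) = ((t : ℝ) ^ K) ^ (1 / (K : ℝ)) := by
          rw [← Real.rpow_natCast, ← Real.rpow_mul (by positivity), mul_one_div_cancel hK0.ne',
            Real.rpow_one]
        rw [e1]
        refine Real.rpow_le_rpow (by positivity) ?_ (by positivity)
        exact_mod_cast hz'
      calc ((S t (N.factorization p)).card : ℝ) ≤ ((t ^ N.factorization p : ℕ) : ℝ) := by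
            exact_mod_cast S_le2 t _
        _ = (t : ℝ) ^ N.factorization p := by push_cast; rfl
        _ ≤ ((p : ℝ) ^ (1 / (K : ℝ))) ^ N.factorization p :=
            pow_le_pow_left₀ (by positivity) hb _
        _ = ((p ^ N.factorization p : ℕ) : ℝ) ^ (1 / (K : ℝ)) := by
            rw [← Real.rpow_natCast, ← Real.rpow_mul (by positivity), mul_comm,
              Real.rpow_mul (by positivity), Real.rpow_natCast]
            push_cast
            rfl
  refine (prod_le_prod (fun p _ => by positivity) h2).trans ?_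
  rw [prod_mul_distrib]
  have h3 : ∏ p ∈ N.primeFactors, ((p ^ N.factorization p : ℕ) : ℝ) ^ (1 / (K : ℝ)) =
      (N : ℝ) ^ (1 / (K : ℝ)) := by
    rw [Real.finsetProd_rpow _ _ (fun p _ => by positivity)]
    rw [← Nat.cast_prod]
    have h4 : ∏ p ∈ N.primeFactors, p ^ N.factorization p = N := by
      conv_rhs => rw [← Nat.prod_factorization_pow_eq_self hN]
      rfl
    rw [h4]
  rw [h3]
  refine mul_le_mul_of_nonneg_right ?_ (by positivity)
  rw [prod_ite, prod_const, prod_const_one, mul_one, ← pow_mul]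
  refine pow_le_pow_right₀ hB1 ?_
  rw [pow_succ, mul_comm]
  refine Nat.mul_le_mul_right _ ?_
  have hsub : N.primeFactors.filter (fun p => p ≤ t ^ K) ⊆ Icc 1 (t ^ K) := by
    intro p hp
    rw [mem_filter] at hp
    rw [mem_Icc]
    exact ⟨(Nat.prime_of_mem_primeFactors hp.1).pos, hp.2⟩
  have := card_le_card hsub
  rwa [Nat.card_Icc, Nat.add_sub_cancel] at this

end ML

theorem ml2_thm : S_ML2 := by
  intro ε hε
  obtain ⟨K, hK⟩ := exists_nat_ge (max 1 (6 / ε))
  have hK1 : (1 : ℝ) ≤ K := (le_max_left _ _).trans hK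
  have hK1' : 1 ≤ K := by exact_mod_cast hK1
  have hKε : 6 / ε ≤ K := (le_max_right _ _).trans hK
  have hK0 : (0 : ℝ) < K := by linarith
  refine ⟨1 / (2 * ((K : ℝ) + 1)), Real.exp (max 2 ((16 / ε) ^ 4)), by positivity, ?_, ?_⟩
  · have h1 := Real.add_one_le_exp (max 2 ((16 / ε) ^ 4))
    have h2 : (2 : ℝ) ≤ max 2 ((16 / ε) ^ 4) := le_max_left _ _
    linarith
  intro X P t U hX ht1 ht hP hPt hU
  have hX0 : 0 < X := (Real.exp_pos _).trans_le hX
  set u := Real.log X with hu
  have hu0 : max 2 ((16 / ε) ^ 4) ≤ u := by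
    rw [hu]
    exact (Real.le_log_iff_exp_le hX0).2 hX
  have hu2 : 2 ≤ u := (le_max_left _ _).trans hu0
  have hu16 : (16 / ε) ^ 4 ≤ u := (le_max_right _ _).trans hu0
  have hexp : Real.exp u = X := Real.exp_log hX0
  have hX1 : 1 ≤ X := by
    rw [← hexp]
    exact Real.one_le_exp (by linarith)
  have hc1 : 1 / (2 * ((K : ℝ) + 1)) ≤ 1 := by
    rw [div_le_one (by positivity)]
    linarith
  have htu : (t : ℝ) ≤ u := by
    refine ht.trans ?_
    calc u ^ (1 / (2 * ((K : ℝ) + 1))) ≤ u ^ (1 : ℝ) :=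
          Real.rpow_le_rpow_of_exponent_le (by linarith) hc1
      _ = u := Real.rpow_one u
  have h2t : (2 : ℝ) ^ t ≤ X := by
    calc (2 : ℝ) ^ t ≤ (Real.exp 1) ^ t := by
          refine pow_le_pow_left₀ (by norm_num) ?_ t
          have := Real.add_one_le_exp (1 : ℝ)
          linarith
      _ = Real.exp t := by rw [← Real.exp_nat_mul, mul_one]
      _ ≤ Real.exp u := Real.exp_le_exp.2 htu
      _ = X := hexp
  have hPt2 : (P : ℝ) ^ t ≤ X * X := by
    obtain ⟨s, rfl⟩ : ∃ s, t = s + 1 := ⟨t - 1, by omega⟩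
    rw [pow_succ]
    have h5 : (P : ℝ) ^ s < X := hPt
    exact mul_le_mul h5.le hP (by positivity) hX0.le
  have hmain : (2 * (P : ℝ)) ^ t ≤ X ^ 3 := by
    rw [mul_pow]
    calc (2 : ℝ) ^ t * (P : ℝ) ^ t ≤ X * (X * X) :=
          mul_le_mul h2t hPt2 (by positivity) hX0.le
      _ = X ^ 3 := by ring
  refine ⟨hmain, fun N => ?_⟩
  rcases Finset.eq_empty_or_nonempty
    ((Fintype.piFinset fun _ : Fin t => U).filter (fun w => ∏ i, w i = N)) with he | ⟨w, hw⟩
  · rw [he, card_empty, Nat.cast_zero]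
    positivity
  rw [mem_filter, Fintype.mem_piFinset] at hw
  have hN0 : N ≠ 0 := by
    rw [← hw.2]
    exact prod_ne_zero_iff.2 (fun i _ => (hU _ (hw.1 i)).1.ne')
  have hNX : (N : ℝ) ≤ X ^ 3 := by
    refine le_trans ?_ hmain
    have h6 : N ≤ (2 * P) ^ t := by
      rw [← hw.2]
      calc ∏ i, w i ≤ ∏ _i : Fin t, (2 * P) := prod_le_prod' (fun i _ => (hU _ (hw.1 i)).2.le)
        _ = (2 * P) ^ t := by simp
    exact_mod_cast h6
  have hBp : ∀ p ∈ N.primeFactors, (N.factorization p : ℝ) + 1 ≤ 6 * u := by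
    intro p hp
    have hp2 : 2 ≤ p := (Nat.prime_of_mem_primeFactors hp).two_le
    have h7 : 2 ^ N.factorization p ≤ N :=
      (Nat.pow_le_pow_left hp2 _).trans
        (Nat.le_of_dvd (Nat.pos_of_ne_zero hN0) (Nat.ordProj_dvd N p))
    have h8 : (2 : ℝ) ^ N.factorization p ≤ X ^ 3 := by
      refine le_trans ?_ hNX
      exact_mod_cast h7
    have h9 := Real.log_le_log (by positivity) h8
    rw [Real.log_pow, Real.log_pow, ← hu] at h9
    have h10 : (0.6931471803 : ℝ) < Real.log 2 := Real.log_two_gt_d9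
    push_cast at h9
    have h11 : (N.factorization p : ℝ) * 0.6 ≤ 3 * u := by
      refine le_trans ?_ h9
      exact mul_le_mul_of_nonneg_left (by linarith) (by positivity)
    linarith
  have hB1 : 1 ≤ 6 * u := by linarith
  refine (ML.fac_le2 t K ht1 hK1' U (fun q hq => (hU q hq).1) N hN0 (6 * u) hBp hB1).trans ?_
  have hA : (N : ℝ) ^ (1 / (K : ℝ)) ≤ X ^ (ε / 2) := by
    calc (N : ℝ) ^ (1 / (K : ℝ)) ≤ (X ^ 3) ^ (1 / (K : ℝ)) :=
          Real.rpow_le_rpow (by positivity) hNX (by positivity)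
      _ = X ^ (3 * (1 / (K : ℝ))) := by
          rw [← Real.rpow_natCast, ← Real.rpow_mul hX0.le]
          norm_num
      _ ≤ X ^ (ε / 2) := by
          refine Real.rpow_le_rpow_of_exponent_le hX1 ?_
          rw [mul_one_div, div_le_iff₀ hK0]
          have h12 : 6 ≤ K * ε := (div_le_iff₀ hε).1 hKε
          nlinarith
  have hBb : (6 * u) ^ (t ^ (K + 1)) ≤ X ^ (ε / 2) := by
    have h13 : ((t ^ (K + 1) : ℕ) : ℝ) ≤ u ^ (1 / 2 : ℝ) := by
      calc ((t ^ (K + 1) : ℕ) : ℝ) = (t : ℝ) ^ (K + 1) := by push_cast; rfl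
        _ ≤ (u ^ (1 / (2 * ((K : ℝ) + 1)))) ^ (K + 1) := pow_le_pow_left₀ (by positivity) ht _
        _ = u ^ (1 / 2 : ℝ) := by
            rw [← Real.rpow_natCast, ← Real.rpow_mul (by linarith)]
            congr 1
            push_cast
            field_simp
    have h14 : Real.log (6 * u) ≤ ε / 2 * u ^ (1 / 2 : ℝ) := by
      have hq : 16 / ε ≤ u ^ (1 / 4 : ℝ) := by
        have e1 : 16 / ε = ((16 / ε) ^ 4) ^ (1 / 4 : ℝ) := by
          rw [← Real.rpow_natCast, ← Real.rpow_mul (by positivity)]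
          norm_num
        rw [e1]
        exact Real.rpow_le_rpow (by positivity) hu16 (by norm_num)
      have h15 : Real.log (6 * u) ≤ (6 * u) ^ (1 / 4 : ℝ) / (1 / 4) :=
        Real.log_le_rpow_div (by positivity) (by norm_num)
      have h16 : (6 * u) ^ (1 / 4 : ℝ) ≤ 2 * u ^ (1 / 4 : ℝ) := by
        rw [Real.mul_rpow (by norm_num) (by linarith)]
        refine mul_le_mul_of_nonneg_right ?_ (by positivity)
        calc (6 : ℝ) ^ (1 / 4 : ℝ) ≤ 16 ^ (1 / 4 : ℝ) :=
              Real.rpow_le_rpow (by norm_num) (by norm_num) (by norm_num)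
          _ = 2 := by
              rw [show (16 : ℝ) = 2 ^ (4 : ℝ) by norm_num, ← Real.rpow_mul (by norm_num)]
              norm_num
      have h17 : u ^ (1 / 2 : ℝ) = u ^ (1 / 4 : ℝ) * u ^ (1 / 4 : ℝ) := by
        rw [← Real.rpow_add (by linarith)]
        norm_num
      have h18 : 0 < u ^ (1 / 4 : ℝ) := Real.rpow_pos_of_pos (by linarith) _
      rw [h17]
      have h19 : 16 ≤ u ^ (1 / 4 : ℝ) * ε := (div_le_iff₀ hε).1 hq
      calc Real.log (6 * u) ≤ (6 * u) ^ (1 / 4 : ℝ) / (1 / 4) := h15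
        _ ≤ 8 * u ^ (1 / 4 : ℝ) := by linarith
        _ ≤ ε / 2 * (u ^ (1 / 4 : ℝ) * u ^ (1 / 4 : ℝ)) := by nlinarith
    have h6u : 0 < 6 * u := by linarith
    rw [← Real.exp_log h6u, ← Real.exp_nat_mul, Real.rpow_def_of_pos hX0]
    refine Real.exp_le_exp.2 ?_
    rw [← hu]
    have hlog0 : 0 ≤ Real.log (6 * u) := Real.log_nonneg hB1
    calc ((t ^ (K + 1) : ℕ) : ℝ) * Real.log (6 * u)
        ≤ u ^ (1 / 2 : ℝ) * Real.log (6 * u) := mul_le_mul_of_nonneg_right h13 hlog0
      _ ≤ u ^ (1 / 2 : ℝ) * (ε / 2 * u ^ (1 / 2 : ℝ)) :=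
          mul_le_mul_of_nonneg_left h14 (by positivity)
      _ = ε / 2 * (u ^ (1 / 2 : ℝ) * u ^ (1 / 2 : ℝ)) := by ring
      _ = u * (ε / 2) := by
          rw [← Real.rpow_add (by linarith)]
          norm_num
          ring
  calc (6 * u) ^ (t ^ (K + 1)) * (N : ℝ) ^ (1 / (K : ℝ)) ≤ X ^ (ε / 2) * X ^ (ε / 2) :=
        mul_le_mul hBb hA (by positivity) (by positivity)
    _ = X ^ ε := by
        rw [← Real.rpow_add hX0]
        ring_nf

end Pool.FEX
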